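import Pool.Agent.V11205.SubN.Rep

/-!
# Character values at elements of mixed order: a counterexample

`G = D wr C_2` with `D` the dihedral group of order `12` (so `D` is `S_3 × C_2` and `|G| = 288`),
and `x = (s, t)` in the base group, with `s` a reflection and `t` a rotation of order `3`.
Both `Sub_G(x_2)` and `Sub_G(x_3)` are equal to `G`, so property (SS) holds trivially for both
prime parts of `x`.  But `Sub_G(x) = C_D(s) × D` has order `48`, all its irreducible characters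
take the value `1` or `-1` at `x`, while `G` has an irreducible character with value `2` at `x`.
-/

set_option autoImplicit false
open CategoryTheory

namespace Pool.Agent.Results.MP_3a6623_al.OrderSixCounterexample
open Pool.Agent.W367.SN Pool.Agent.V11205.SubN

/-- `H` is subnormal in `K`: there is a chain from `H` to `K`, each term normal in the next. -/
def Subnormal {G : Type} [Group G] (H K : Subgroup G) : Prop :=
  ∃ n : ℕ, ∃ c : ℕ → Subgroup G, c 0 = H ∧ c n = K ∧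
    ∀ i < n, c i ≤ c (i + 1) ∧ ((c i).subgroupOf (c (i + 1))).Normal

/-- The subnormalizer subgroup `Sub_G(x)`, generated by the `g` such that `⟨x⟩` is subnormal in
`⟨x, g⟩`. -/
def Sub {G : Type} [Group G] (x : G) : Subgroup G :=
  Subgroup.closure {g : G | Subnormal (Subgroup.zpowers x) (Subgroup.closure {x, g})}

theorem mem_Sub {G : Type} [Group G] (x : G) : x ∈ Sub x := by
  apply Subgroup.subset_closure
  apply chain_normal
  · rw [mul_inv_cancel_right]; exact Subgroup.mem_zpowers x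
  · rw [inv_mul_cancel, one_mul]; exact Subgroup.mem_zpowers x

/-- The element `x` of `Sub_G(x)`. -/
def inSub {G : Type} [Group G] (x : G) : Sub x := ⟨x, mem_Sub x⟩

/-- `Irr^x(G)`: the irreducible complex characters of `G` that do not vanish at `x`. -/
def IrrAt (G : Type) [Group G] (x : G) : Set (G → ℂ) :=
  {χ | (∃ V : FDRep ℂ G, Simple V ∧ V.character = χ) ∧ χ x ≠ 0}

/-- `a` and `b` are positive integers with the same `p`-part. -/
def SamePart (p : ℕ) (a b : ℂ) : Prop :=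
  ∃ n m : ℕ, 0 < n ∧ 0 < m ∧ a = n ∧ b = m ∧ p ^ padicValNat p n = p ^ padicValNat p m

/-- Property (SS) for `(G, y)` and the prime `p`. -/
def SS (p : ℕ) {G : Type} [Group G] (y : G) : Prop :=
  ∃ g : IrrAt G y ≃ IrrAt (Sub y) (inSub y), ∀ χ : IrrAt G y,
    SamePart p (χ.1 1) ((g χ).1 1) ∧
      ((g χ).1 (inSub y) = χ.1 y ∨ (g χ).1 (inSub y) = - χ.1 y)

/-- `y` is the `p`-part of `x`: a power of `x` of `p`-power order such that `x y⁻¹` has order
prime to `p`. -/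
def IsPart (p : ℕ) {G : Type} [Group G] (x y : G) : Prop :=
  y ∈ Subgroup.zpowers x ∧ (∃ k : ℕ, orderOf y = p ^ k) ∧ (orderOf (x * y⁻¹)).Coprime p

/-- The bijection asked for in Q1. -/
def GoodBijection {G : Type} [Group G] (x : G)
    (f : IrrAt G x ≃ IrrAt (Sub x) (inSub x)) : Prop :=
  (∀ χ : IrrAt G x, χ.1 x = (f χ).1 (inSub x) ∨ χ.1 x = - (f χ).1 (inSub x)) ∧
    ∀ p : ℕ, p.Prime → ∀ y : G, IsPart p x y →
      (∃ P : Sylow p G, ∀ u ∈ P, u * (x * y⁻¹) = x * y⁻¹ * u) →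
      ∀ χ : IrrAt G x, SamePart p (χ.1 1) ((f χ).1 1)

/-- the dihedral group of order twelve -/
abbrev D := DihedralGroup 6

/-- the group of order 288 -/
abbrev Γ := Wr D

/-- a reflection -/
def s : D := .sr 0
/-- a rotation of order three -/
def t : D := .r 2

/-- the element of order six -/
def x : Γ := ⟨s, t, false⟩
def x2 : Γ := ⟨s, 1, false⟩
def x3 : Γ := ⟨1, t, false⟩

/-! ### the trivial cases -/

theorem irr_iff {G : Type} [Group G] (χ : G → ℂ) :
    (∃ V : FDRep ℂ G, Simple V ∧ V.character = χ) ↔ χ ∈ IrrC G := Iff.rfl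

/-- transport of the characters to the whole group, viewed as a subgroup -/
theorem SS_of_top (p : ℕ) {G : Type} [Group G] [Finite G] (y : G) (h : Sub y = ⊤) : SS p y := by
  classical
  have : Fintype G := Fintype.ofFinite G
  have : Fintype (Sub y) := Fintype.ofFinite _
  let e : Sub y ≃* G := (MulEquiv.subgroupCongr h).trans Subgroup.topEquiv
  have he : ∀ g : Sub y, e g = (g : G) := fun g => rfl
  have h1 : ∀ χ : G → ℂ, χ ∈ IrrC G → (fun g => χ (e g)) ∈ IrrC (Sub y) := fun χ hχ => irr_comp e hχ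
  have h2 : ∀ χ : Sub y → ℂ, χ ∈ IrrC (Sub y) → (fun g => χ (e.symm g)) ∈ IrrC G :=
    fun χ hχ => irr_comp e.symm hχ
  have hy : e (inSub y) = y := rfl
  have hy' : e.symm y = inSub y := by rw [MulEquiv.symm_apply_eq]; rfl
  refine ⟨⟨fun χ => ⟨fun g => χ.1 (e g), h1 _ χ.2.1, χ.2.2⟩,
    fun χ => ⟨fun g => χ.1 (e.symm g), h2 _ χ.2.1, ?_⟩, ?_, ?_⟩, ?_⟩
  · have h3 := χ.2.2
    change χ.1 (e.symm y) ≠ 0
    rw [hy']; exact h3
  · intro χ
    apply Subtype.ext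
    funext g
    change χ.1 (e (e.symm g)) = χ.1 g
    rw [e.apply_symm_apply]
  · intro χ
    apply Subtype.ext
    funext g
    change χ.1 (e.symm (e g)) = χ.1 g
    rw [e.symm_apply_apply]
  · intro χ
    constructor
    · obtain ⟨n, hn, hχ⟩ := irr_one χ.2.1
      refine ⟨n, n, hn, hn, hχ, ?_, rfl⟩
      change χ.1 (e 1) = n
      rw [map_one]; exact hχ
    · left; rfl

/-! ### the subnormalizers -/

theorem x_pow : x ^ 6 = 1 := by decide

theorem order_x : orderOf x = 6 := by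
  have h1 : orderOf x ∣ 6 := orderOf_dvd_of_pow_eq_one x_pow
  have h2 : ¬ orderOf x ∣ 2 := fun h => by
    have := orderOf_dvd_iff_pow_eq_one.1 h
    revert this; decide
  have h3 : ¬ orderOf x ∣ 3 := fun h => by
    have := orderOf_dvd_iff_pow_eq_one.1 h
    revert this; decide
  have h4 : orderOf x ≤ 6 := Nat.le_of_dvd (by norm_num) h1
  interval_cases orderOf x <;> simp_all

theorem conj_t : ∀ b : D, b * t * b⁻¹ = t ∨ b * t * b⁻¹ = t⁻¹ := by decide

/-- the subgroup of pairs of powers of `t` -/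
def At : Subgroup Γ where
  carrier := {w | w.e = false ∧ (w.a = 1 ∨ w.a = t ∨ w.a = t⁻¹) ∧ (w.b = 1 ∨ w.b = t ∨ w.b = t⁻¹)}
  one_mem' := ⟨rfl, Or.inl rfl, Or.inl rfl⟩
  mul_mem' := by
    rintro ⟨a, b, e⟩ ⟨c, d, f⟩ ⟨h1, h2, h3⟩ ⟨h4, h5, h6⟩
    change e = false at h1
    change f = false at h4
    subst h1 h4
    have key : ∀ u v : D, (u = 1 ∨ u = t ∨ u = t⁻¹) → (v = 1 ∨ v = t ∨ v = t⁻¹) →
        (u * v = 1 ∨ u * v = t ∨ u * v = t⁻¹) := by decide
    exact ⟨rfl, key _ _ h2 h5, key _ _ h3 h6⟩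
  inv_mem' := by
    rintro ⟨a, b, e⟩ ⟨h1, h2, h3⟩
    change e = false at h1
    subst h1
    have key : ∀ u : D, (u = 1 ∨ u = t ∨ u = t⁻¹) → (u⁻¹ = 1 ∨ u⁻¹ = t ∨ u⁻¹ = t⁻¹) := by decide
    exact ⟨rfl, key _ h2, key _ h3⟩

theorem At_comm : ∀ u ∈ At, ∀ v ∈ At, u * v = v * u := by
  rintro ⟨a, b, e⟩ ⟨h1, h2, h3⟩ ⟨c, d, f⟩ ⟨h4, h5, h6⟩
  change e = false at h1
  change f = false at h4
  subst h1 h4
  have key : ∀ u v : D, (u = 1 ∨ u = t ∨ u = t⁻¹) → (v = 1 ∨ v = t ∨ v = t⁻¹) →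
      u * v = v * u := by decide
  rw [Wr.mul_ff, Wr.mul_ff, key _ _ h2 h5, key _ _ h3 h6]

theorem At_conj (g : Γ) : ∀ u ∈ At, g * u * g⁻¹ ∈ At := by
  obtain ⟨a, b, e⟩ := g
  rintro ⟨c, d, f⟩ ⟨h4, h5, h6⟩
  change f = false at h4
  subst h4
  have key : ∀ g u : D, (u = 1 ∨ u = t ∨ u = t⁻¹) →
      (g * u * g⁻¹ = 1 ∨ g * u * g⁻¹ = t ∨ g * u * g⁻¹ = t⁻¹) := by decide
  cases e
  · rw [Wr.mul_ff, Wr.inv_ff, Wr.mul_ff]
    exact ⟨rfl, key _ _ h5, key _ _ h6⟩
  · rw [Wr.mul_tt, Wr.inv_tt, Bool.not_false, Wr.mul_tt]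
    exact ⟨rfl, key _ _ h6, key _ _ h5⟩

theorem Sub_x3 : Sub x3 = ⊤ := by
  rw [eq_top_iff]
  intro g _
  apply Subgroup.subset_closure
  apply chain_abelian x3 g At At_comm
  · exact ⟨rfl, Or.inl rfl, Or.inr (Or.inl rfl)⟩
  · exact At_conj g
  · intro a ha
    have := At_conj g⁻¹ a ha
    rwa [inv_inv] at this

/-- the subgroup of pairs of powers of `s` -/
def As : Subgroup Γ where
  carrier := {w | w.e = false ∧ (w.a = 1 ∨ w.a = s) ∧ (w.b = 1 ∨ w.b = s)}
  one_mem' := ⟨rfl, Or.inl rfl, Or.inl rfl⟩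
  mul_mem' := by
    rintro ⟨a, b, e⟩ ⟨c, d, f⟩ ⟨h1, h2, h3⟩ ⟨h4, h5, h6⟩
    change e = false at h1
    change f = false at h4
    subst h1 h4
    have key : ∀ u v : D, (u = 1 ∨ u = s) → (v = 1 ∨ v = s) → (u * v = 1 ∨ u * v = s) := by decide
    exact ⟨rfl, key _ _ h2 h5, key _ _ h3 h6⟩
  inv_mem' := by
    rintro ⟨a, b, e⟩ ⟨h1, h2, h3⟩
    change e = false at h1
    subst h1
    have key : ∀ u : D, (u = 1 ∨ u = s) → (u⁻¹ = 1 ∨ u⁻¹ = s) := by decide
    exact ⟨rfl, key _ h2, key _ h3⟩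

theorem As_comm : ∀ u ∈ As, ∀ v ∈ As, u * v = v * u := by
  rintro ⟨a, b, e⟩ ⟨h1, h2, h3⟩ ⟨c, d, f⟩ ⟨h4, h5, h6⟩
  change e = false at h1
  change f = false at h4
  subst h1 h4
  have key : ∀ u v : D, (u = 1 ∨ u = s) → (v = 1 ∨ v = s) → u * v = v * u := by decide
  rw [Wr.mul_ff, Wr.mul_ff, key _ _ h2 h5, key _ _ h3 h6]

/-- the swap -/
def sw : Γ := ⟨1, 1, true⟩

theorem sw_mem : sw ∈ Sub x2 := by
  apply Subgroup.subset_closure
  have hc : ∀ u ∈ As, sw * u * sw⁻¹ ∈ As := by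
    rintro ⟨c, d, f⟩ ⟨h4, h5, h6⟩
    change f = false at h4
    subst h4
    have : sw * ⟨c, d, false⟩ * sw⁻¹ = ⟨d, c, false⟩ := by simp [sw]
    rw [this]
    exact ⟨rfl, h6, h5⟩
  apply chain_abelian x2 sw As As_comm
  · exact ⟨rfl, Or.inr rfl, Or.inl rfl⟩
  · exact hc
  · intro a ha
    have h1 : sw⁻¹ = sw := by simp [sw]
    have := hc a ha
    rw [h1] at this ⊢
    exact this

theorem right_mem (b : D) : (⟨1, b, false⟩ : Γ) ∈ Sub x2 := by
  apply Subgroup.subset_closure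
  apply chain_normal
  · have : (⟨1, b, false⟩ : Γ) * x2 * (⟨1, b, false⟩ : Γ)⁻¹ = x2 := by simp [x2]
    rw [this]; exact Subgroup.mem_zpowers _
  · have : (⟨1, b, false⟩ : Γ)⁻¹ * x2 * (⟨1, b, false⟩ : Γ) = x2 := by simp [x2]
    rw [this]; exact Subgroup.mem_zpowers _

theorem Sub_x2 : Sub x2 = ⊤ := by
  rw [eq_top_iff]
  rintro ⟨a, b, e⟩ _
  have h1 : (⟨a, b, false⟩ : Γ) ∈ Sub x2 := by
    have : (⟨a, b, false⟩ : Γ) = sw * ⟨1, a, false⟩ * sw * ⟨1, b, false⟩ := by simp [sw]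
    rw [this]
    exact Subgroup.mul_mem _ (Subgroup.mul_mem _ (Subgroup.mul_mem _ sw_mem (right_mem a)) sw_mem)
      (right_mem b)
  cases e
  · exact h1
  · have : (⟨a, b, true⟩ : Γ) = ⟨a, b, false⟩ * sw := by simp [sw]
    rw [this]
    exact Subgroup.mul_mem _ h1 sw_mem

/-- the subnormalizer of `x` -/
def Hx : Subgroup Γ where
  carrier := {w | w.e = false ∧ w.a * s = s * w.a}
  one_mem' := ⟨rfl, rfl⟩
  mul_mem' := by
    rintro ⟨a, b, e⟩ ⟨c, d, f⟩ ⟨h1, h2⟩ ⟨h4, h5⟩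
    change e = false at h1
    change f = false at h4
    subst h1 h4
    have key : ∀ u v : D, u * s = s * u → v * s = s * v → u * v * s = s * (u * v) := by decide
    exact ⟨rfl, key _ _ h2 h5⟩
  inv_mem' := by
    rintro ⟨a, b, e⟩ ⟨h1, h2⟩
    change e = false at h1
    subst h1
    have key : ∀ u : D, u * s = s * u → u⁻¹ * s = s * u⁻¹ := by decide
    exact ⟨rfl, key _ h2⟩

theorem x_mem : x ∈ Hx := ⟨rfl, rfl⟩

theorem Hx_inv (h : Γ) (hh : h ∉ Hx) : h * x * h⁻¹ * x⁻¹ ∉ Hx := by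
  obtain ⟨a, b, e⟩ := h
  cases e
  · have h1 : ¬ a * s = s * a := fun hcon => hh ⟨rfl, hcon⟩
    have key : ∀ a : D, ¬ a * s = s * a →
        ¬ (a * s * a⁻¹ * s⁻¹ * s = s * (a * s * a⁻¹ * s⁻¹)) := by decide
    rintro ⟨_, h2⟩
    have h3 : ((⟨a, b, false⟩ : Γ) * x * (⟨a, b, false⟩ : Γ)⁻¹ * x⁻¹).a = a * s * a⁻¹ * s⁻¹ := by
      simp [x]
    rw [h3] at h2
    exact key a h1 h2
  · have key : ∀ a : D, ¬ (a * t * a⁻¹ * s⁻¹ * s = s * (a * t * a⁻¹ * s⁻¹)) := by decide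
    rintro ⟨_, h2⟩
    have h3 : ((⟨a, b, true⟩ : Γ) * x * (⟨a, b, true⟩ : Γ)⁻¹ * x⁻¹).a = a * t * a⁻¹ * s⁻¹ := by
      simp [x]
    rw [h3] at h2
    exact key a h2

theorem Hx_conj (g : Γ) (hg : g ∈ Hx) : g * x * g⁻¹ ∈ Subgroup.zpowers x := by
  obtain ⟨a, b, e⟩ := g
  obtain ⟨h1, h2⟩ := hg
  change e = false at h1
  change a * s = s * a at h2
  subst h1
  have h3 : (⟨a, b, false⟩ : Γ) * x * (⟨a, b, false⟩ : Γ)⁻¹ = ⟨s, b * t * b⁻¹, false⟩ := by
    rw [x, Wr.mul_ff, Wr.inv_ff, Wr.mul_ff, h2, mul_inv_cancel_right]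
  rw [h3]
  rcases conj_t b with h | h
  · rw [h]; exact Subgroup.mem_zpowers x
  · rw [h]
    have h4 : (⟨s, t⁻¹, false⟩ : Γ) = x⁻¹ := by decide
    rw [h4]
    exact Subgroup.inv_mem _ (Subgroup.mem_zpowers x)

theorem Sub_x : Sub x = Hx := by
  apply le_antisymm
  · rw [Sub, Subgroup.closure_le]
    rintro g ⟨n, c, h0, hn, hc⟩
    have := chain_inv c x (fun h => h ∈ Hx) Hx_inv (by rw [h0]; exact Subgroup.mem_zpowers x)
      (by
        intro h hh
        rw [h0] at hh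
        exact (Subgroup.zpowers_le.2 x_mem) hh) n hc
    apply this.2 g
    rw [hn]
    exact Subgroup.subset_closure (by simp)
  · intro g hg
    apply Subgroup.subset_closure
    apply chain_normal
    · exact Hx_conj g hg
    · have := Hx_conj g⁻¹ (Subgroup.inv_mem _ hg)
      rwa [inv_inv] at this

/-! ### the characters -/

theorem value_sub (C : Subgroup Γ) (hC : C = Hx) (y : C) (hy : (y : Γ) = x) (ψ : C → ℂ)
    (hψ : ψ ∈ IrrC C) : ψ y = 1 ∨ ψ y = -1 := by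
  subst hC
  have m2 : x2 ∈ Hx := ⟨rfl, rfl⟩
  have m3 : x3 ∈ Hx := ⟨rfl, rfl⟩
  have mw : (⟨1, s, false⟩ : Γ) ∈ Hx := ⟨rfl, rfl⟩
  have hyy : y = (⟨x2, m2⟩ : Hx) * ⟨x3, m3⟩ := by
    apply Subtype.ext
    rw [hy]
    change x = x2 * x3
    decide
  rw [hyy]
  apply char_value hψ _ _ (⟨⟨1, s, false⟩, mw⟩ : Hx)
  · apply Subtype.ext
    change x3 * x3 * x3 = 1
    decide
  · apply Subtype.ext
    change (⟨1, s, false⟩ : Γ) * ⟨1, s, false⟩ = 1
    decide
  · apply Subtype.ext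
    change (⟨1, s, false⟩ : Γ) * x3 * ⟨1, s, false⟩ = x3 * x3
    decide
  · apply Subtype.ext
    change x2 * x2 = 1
    decide
  · rintro ⟨⟨a, b, e⟩, h1, h2⟩
    change e = false at h1
    change a * s = s * a at h2
    subst h1
    apply Subtype.ext
    change x2 * ⟨a, b, false⟩ = ⟨a, b, false⟩ * x2
    rw [x2, Wr.mul_ff, Wr.mul_ff, h2, one_mul, mul_one]
  · rintro ⟨⟨a, b, e⟩, h1, h2⟩
    change e = false at h1
    change a * s = s * a at h2
    subst h1
    have key : ∀ b : D, ∃ z : D, (z = 1 ∨ z = .r 3) ∧ ∃ j : Fin 3, ∃ k : Fin 2,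
        b = z * t ^ (j : ℕ) * s ^ (k : ℕ) := by decide
    have key2 : ∀ z : D, (z = 1 ∨ z = .r 3) → ∀ h : D, z * h = h * z := by decide
    have key3 : ∀ a : D, a * s = s * a → ∀ c : D, c * s = s * c → a * c = c * a := by decide
    obtain ⟨z, hz, j, k, hb⟩ := key b
    refine ⟨⟨⟨a, z, false⟩, rfl, h2⟩, ?_, j, k, ?_⟩
    · rintro ⟨⟨c, d, f⟩, h3, h4⟩
      change f = false at h3
      change c * s = s * c at h4
      subst h3
      apply Subtype.ext
      change (⟨a, z, false⟩ : Γ) * ⟨c, d, false⟩ = ⟨c, d, false⟩ * ⟨a, z, false⟩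
      rw [Wr.mul_ff, Wr.mul_ff, key3 a h2 c h4, key2 z hz d]
    · apply Subtype.ext
      change (⟨a, b, false⟩ : Γ) = ⟨a, z, false⟩ * x3 ^ (j : ℕ) * (⟨1, s, false⟩ : Γ) ^ (k : ℕ)
      have e1 : ∀ (u : D) (i : ℕ), (⟨1, u, false⟩ : Γ) ^ i = ⟨1, u ^ i, false⟩ := by
        intro u i
        induction i with
        | zero => rfl
        | succ i ih => rw [pow_succ, ih, Wr.mul_ff, mul_one, pow_succ]
      rw [x3, e1, e1, Wr.mul_ff, Wr.mul_ff, mul_one, mul_one, ← hb]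

/-- a linear character of the dihedral group -/
def sg : D → ℂ
  | .r i => (-1) ^ i.val
  | .sr i => (-1) ^ i.val

def sgI : D → ℤ
  | .r i => (-1) ^ i.val
  | .sr i => (-1) ^ i.val

theorem sg_eq (d : D) : sg d = (sgI d : ℂ) := by
  cases d <;> simp [sg, sgI]

theorem sgI_mul : ∀ a b : D, sgI (a * b) = sgI a * sgI b := by decide

theorem linear_mem (l : D → ℂ) (h1 : l 1 = 1) (hm : ∀ a b, l (a * b) = l a * l b) :
    l ∈ IrrC D := by
  let ρ : D →* Matrix (Fin 1) (Fin 1) ℂ :=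
    { toFun := fun g => l g • 1
      map_one' := by rw [h1, one_smul]
      map_mul' := fun a b => by rw [hm, smul_mul_smul_comm, one_mul] }
  have htr : ∀ g, (ρ g).trace = l g := by
    intro g
    change (l g • (1 : Matrix (Fin 1) (Fin 1) ℂ)).trace = l g
    rw [Matrix.trace_smul, Matrix.trace_one, Fintype.card_fin, smul_eq_mul]
    norm_num
  have h2 : (fun g => (ρ g).trace) = l := funext htr
  rw [← h2]
  apply mem_irr_of_matrix
  have h3 : ∀ g, (ρ g).trace * (ρ g⁻¹).trace = 1 := by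
    intro g
    rw [htr, htr, ← hm, mul_inv_cancel, h1]
  rw [Finset.sum_congr rfl (fun g _ => h3 g)]
  simp

theorem one_mem : (fun _ => 1 : D → ℂ) ∈ IrrC D := linear_mem _ rfl (fun _ _ => by norm_num)

theorem sg_mem : sg ∈ IrrC D := by
  apply linear_mem
  · rw [sg_eq]
    have : sgI 1 = 1 := by decide
    rw [this]; norm_num
  · intro a b
    rw [sg_eq, sg_eq, sg_eq, sgI_mul]; push_cast; rfl

theorem one_ne_sg : (fun _ => 1 : D → ℂ) ≠ sg := by
  intro h
  have := congrFun h (.r 1)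
  rw [sg_eq] at this
  have h2 : sgI (.r 1) = -1 := by decide
  rw [h2] at this
  norm_num at this

/-- the irreducible character of degree two with value two at `x` -/
theorem exists_two : ∃ χ ∈ IrrAt Γ x, χ x = 2 := by
  have h1 : ind (fun _ => 1) sg x = 2 := by
    rw [x, ind_f, sg_eq, sg_eq]
    have h2 : sgI s = 1 := by decide
    have h3 : sgI t = 1 := by decide
    rw [h2, h3]; norm_num
  exact ⟨ind (fun _ => 1) sg, ⟨ind_mem one_mem sg_mem one_ne_sg, by rw [h1]; norm_num⟩, h1⟩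

theorem parts_two (y : Γ) (h : IsPart 2 x y) : y = x2 := by
  obtain ⟨h1, ⟨k, hk⟩, h3⟩ := h
  obtain ⟨i, hi⟩ := h1
  change x ^ i = y at hi
  have hxy : x * y = y * x := by
    rw [← hi, ← zpow_one_add, ← zpow_add_one, add_comm]
  have hcom : Commute x y := hxy
  have y6 : y ^ 6 = 1 := by
    rw [← hi, ← zpow_natCast, ← zpow_mul, mul_comm, zpow_mul, zpow_natCast, x_pow, one_zpow]
  have y2 : y ^ 2 = 1 := by
    rw [← orderOf_dvd_iff_pow_eq_one]
    have h4 : orderOf y ∣ 2 * 3 := orderOf_dvd_of_pow_eq_one y6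
    apply Nat.Coprime.dvd_of_dvd_mul_right _ h4
    rw [hk]
    exact Nat.Coprime.pow_left _ (by norm_num)
  have z3 : (x * y⁻¹) ^ 3 = 1 := by
    rw [← orderOf_dvd_iff_pow_eq_one]
    have h4 : orderOf (x * y⁻¹) ∣ 3 * 2 := by
      apply orderOf_dvd_of_pow_eq_one
      rw [hcom.inv_right.mul_pow, inv_pow, show 3 * 2 = 6 from rfl, y6, x_pow, inv_one, one_mul]
    exact h3.dvd_of_dvd_mul_right h4
  rw [hcom.inv_right.mul_pow, inv_pow, mul_inv_eq_one] at z3
  have y3 : y ^ 3 = y := by rw [pow_succ, y2, one_mul]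
  rw [← y3, ← z3]
  decide

theorem parts_three (y : Γ) (h : IsPart 3 x y) : y = x3 := by
  obtain ⟨h1, ⟨k, hk⟩, h3⟩ := h
  obtain ⟨i, hi⟩ := h1
  change x ^ i = y at hi
  have hxy : x * y = y * x := by
    rw [← hi, ← zpow_one_add, ← zpow_add_one, add_comm]
  have hcom : Commute x y := hxy
  have y6 : y ^ 6 = 1 := by
    rw [← hi, ← zpow_natCast, ← zpow_mul, mul_comm, zpow_mul, zpow_natCast, x_pow, one_zpow]
  have y3 : y ^ 3 = 1 := by
    rw [← orderOf_dvd_iff_pow_eq_one]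
    have h4 : orderOf y ∣ 3 * 2 := orderOf_dvd_of_pow_eq_one y6
    apply Nat.Coprime.dvd_of_dvd_mul_right _ h4
    rw [hk]
    exact Nat.Coprime.pow_left _ (by norm_num)
  have z2 : (x * y⁻¹) ^ 2 = 1 := by
    rw [← orderOf_dvd_iff_pow_eq_one]
    have h4 : orderOf (x * y⁻¹) ∣ 2 * 3 := by
      apply orderOf_dvd_of_pow_eq_one
      rw [hcom.inv_right.mul_pow, inv_pow, show 2 * 3 = 6 from rfl, y6, x_pow, inv_one, one_mul]
    exact h3.dvd_of_dvd_mul_right h4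
  rw [hcom.inv_right.mul_pow, inv_pow, mul_inv_eq_one] at z2
  have y4 : y ^ 4 = y := by rw [pow_succ, y3, one_mul]
  have y4' : y ^ 4 = (x ^ 2) ^ 2 := by rw [z2, ← pow_mul]
  rw [← y4, y4']
  decide

/-- There are a finite group `G` of order `288` and an element `x` of order `6` such that
`(G, x_p)` has property (SS) for every prime `p` dividing the order of `x`, while some irreducible
character `χ` of `G` with `χ(x) ≠ 0` satisfies `χ(x) ≠ ± ψ(x)` for every irreducible character `ψ`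
of `Sub_G(x)`; in particular no bijection `Irr^x(G) → Irr^x(Sub_G(x))` is as asked in Q1. -/
theorem result : ∃ (G : Type) (_ : Group G) (_ : Finite G) (x : G),
    Nat.card G = 288 ∧ orderOf x = 6 ∧
    (∀ p : ℕ, p.Prime → p ∣ orderOf x → ∀ y : G, IsPart p x y → SS p y) ∧
    (∃ χ ∈ IrrAt G x, ∀ ψ ∈ IrrAt (Sub x) (inSub x),
      χ x ≠ ψ (inSub x) ∧ χ x ≠ - ψ (inSub x)) ∧
    ¬ ∃ f : IrrAt G x ≃ IrrAt (Sub x) (inSub x), GoodBijection x f := by
  obtain ⟨χ, hχ, hv⟩ := exists_two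
  have hmain : ∀ ψ ∈ IrrAt (Sub x) (inSub x), χ x ≠ ψ (inSub x) ∧ χ x ≠ - ψ (inSub x) := by
    intro ψ hψ
    rw [hv]
    rcases value_sub (Sub x) Sub_x (inSub x) rfl ψ hψ.1 with h | h <;> rw [h] <;> norm_num
  refine ⟨Γ, inferInstance, inferInstance, x, ?_, order_x, ?_, ⟨χ, hχ, hmain⟩, ?_⟩
  · rw [Nat.card_eq_fintype_card, Wr.card_eq, DihedralGroup.card]
    norm_num
  · intro p hp hdvd y hy
    rw [order_x] at hdvd
    have : p = 2 ∨ p = 3 := by
      have h1 : p ∣ 2 * 3 := hdvd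
      rcases (Nat.Prime.dvd_mul hp).1 h1 with h | h
      · left; exact (Nat.prime_dvd_prime_iff_eq hp Nat.prime_two).1 h
      · right; exact (Nat.prime_dvd_prime_iff_eq hp Nat.prime_three).1 h
    rcases this with rfl | rfl
    · rw [parts_two y hy]
      exact SS_of_top 2 x2 Sub_x2
    · rw [parts_three y hy]
      exact SS_of_top 3 x3 Sub_x3
  · rintro ⟨f, hf, _⟩
    have h1 := hmain (f ⟨χ, hχ⟩).1 (f ⟨χ, hχ⟩).2
    rcases hf ⟨χ, hχ⟩ with h | h
    · exact h1.1 h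
    · exact h1.2 h

end Pool.Agent.Results.MP_3a6623_al.OrderSixCounterexample
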